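import Pool.Agent.H883.ZS.Sub

set_option autoImplicit false

/-!
# Unlikely intersections in products of lines: points with coordinates of very different heights

Let `V` be the product of `c` lines `a_i x_i + b_i y_i = 1` in the torus `G_m^{2c}`, with nonzero
coefficients in a number field `K0`.  So `V` has dimension `c`; for `c` at least `2` every point of
`V` lies on an anomalous subvariety, and the heights of the points of `V` in subgroups of
codimension greater than `c` are not bounded by the known bounded height theorems.

We show: for every real `B` and every `r` there are `N` and a positive `ε` such that the points `P` of `V`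
which lie in a subgroup of dimension at most `r` (or near such a subgroup, up to a point of height at most
`ε`) are contained in a closed subset of `V` of dimension at most `r` as long as the coordinates
`x_i` of height greater than `B` have lacunary heights (any two of these heights have a quotient of at
least `N`) or there are at most two such coordinates. So for `r = c - 1` (subgroups of codimension
greater than `dim V = c`) these points are not Zariski dense in `V`. The heights of the points are not
bounded.

More precisely the condition is needed only on subsets: for each choice of `r + 1` of the `c` coordinates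
there is a fixed polynomial in these coordinates which vanishes at `P` whenever the chosen coordinates
satisfy the condition, whatever the heights of the other coordinates are; and the common zero set of these
polynomials has dimension at most `r`.

The proof is a method of Thue and Roth with auxiliary polynomials in all coordinates made of
near-constant monomials, and Roth's lemma over number fields.
-/

namespace Pool.Agent.Results.MP_dd1803_nt.LacunaryHeights

open NumberField

/-- the monomial `w^e`, the product of the `w_l ^ e_l` -/
def mon {F κ : Type} [Field F] [Fintype κ] (w : κ → F) (e : κ → ℤ) : F := ∏ l, w l ^ e l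

/-- The point `w` of the torus satisfies `m` independent multiplicative relations `w^r = 1`; in
other words it lies in an algebraic subgroup of codimension `m` (equivalently at least `m`). -/
def Codim {F κ : Type} [Field F] [Fintype κ] (w : κ → F) (m : ℕ) : Prop :=
  ∃ R : Fin m → κ → ℤ, LinearIndependent ℤ R ∧ ∀ k, mon w (R k) = 1

/-- the absolute logarithmic Weil height of an element of a number field -/
noncomputable def ht {K : Type} [Field K] [NumberField K] (x : K) : ℝ :=
  Height.logHeight₁ x / Module.finrank ℚ K

/-- `P = (x, y)` is a point over `K` of the product `V` of the lines `a_i x_i + b_i y_i = 1` in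
the torus of dimension `2 c`; `x_i = P (Sum.inl i)`, `y_i = P (Sum.inr i)`. -/
def OnV {K0 : Type} [Field K0] {c : ℕ} (a b : Fin c → K0) {K : Type} [Field K] [Algebra K0 K]
    (P : Fin c ⊕ Fin c → K) : Prop :=
  (∀ r, P r ≠ 0) ∧
    ∀ i, algebraMap K0 K (a i) * P (Sum.inl i) + algebraMap K0 K (b i) * P (Sum.inr i) = 1

/-- `P = g u` with `g` in an algebraic subgroup of dimension at most `r`, where all
coordinates of `u` have height at most `ε` -/
def NearSubgroup {c : ℕ} {K : Type} [Field K] [NumberField K] (P : Fin c ⊕ Fin c → K) (r : ℕ)
    (ε : ℝ) : Prop :=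
  ∃ g u : Fin c ⊕ Fin c → K, (∀ r, P r = g r * u r) ∧ (∃ m, Codim g m ∧ 2 * c ≤ m + r) ∧
    ∀ r, ht (u r) ≤ ε

/-- any two of the heights of the coordinates of `x` that are greater than `B` have a quotient of
at least `N` -/
def Lacunary {k : ℕ} {K : Type} [Field K] [NumberField K] (x : Fin k → K) (B N : ℝ) : Prop :=
  ∀ i j, i ≠ j → ht (x i) ≤ B ∨ ht (x j) ≤ B ∨ N * ht (x i) ≤ ht (x j) ∨ N * ht (x j) ≤ ht (x i)

/-- at most two of the coordinates of `x` have a height greater than `B` -/
def AtMostTwo {k : ℕ} {K : Type} [Field K] [NumberField K] (x : Fin k → K) (B : ℝ) : Prop :=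
  ∀ i j l, i ≠ j → i ≠ l → j ≠ l → ht (x i) ≤ B ∨ ht (x j) ≤ B ∨ ht (x l) ≤ B

/-- The common zero set of the polynomials `G_e(x_{e(1)}, …, x_{e(k)})`, `e` running through the
injections of `{1, …, k}` into `{1, …, c}`, in the affine space of dimension `c` has dimension less
than `k`, over every extension field `L` of `K0`: the transcendence degree of the coordinate ring of
every irreducible subvariety of the zero set is less than `k`. -/
def SmallDim {K0 : Type} [Field K0] {c k : ℕ} (G : (Fin k ↪ Fin c) → MvPolynomial (Fin k) K0) :
    Prop :=
  ∀ (L : Type) [Field L] [Algebra K0 L] (I : Ideal (MvPolynomial (Fin c) L)), I.IsPrime →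
    (∀ e : Fin k ↪ Fin c,
      MvPolynomial.rename e (MvPolynomial.map (algebraMap K0 L) (G e)) ∈ I) →
    Algebra.trdeg L (MvPolynomial (Fin c) L ⧸ I) < k

theorem result (K0 : Type) [Field K0] [NumberField K0] (c r : ℕ) (a b : Fin c → K0)
    (ha : ∀ i, a i ≠ 0) (hb : ∀ i, b i ≠ 0) (B : ℝ) :
    ∃ G : (Fin (r + 1) ↪ Fin c) → MvPolynomial (Fin (r + 1)) K0, SmallDim G ∧
      ∃ ε N : ℝ, 0 < ε ∧
      ∀ (K : Type) [Field K] [NumberField K] [Algebra K0 K] (P : Fin c ⊕ Fin c → K),
        OnV a b P → NearSubgroup P r ε →
        ∀ e : Fin (r + 1) ↪ Fin c,
          (Lacunary (fun j => P (Sum.inl (e j))) B N ∨ AtMostTwo (fun j => P (Sum.inl (e j))) B) →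
          MvPolynomial.aeval (fun j => P (Sum.inl (e j))) (G e) = 0 := by
  obtain ⟨G, hG, ε, N, hε, h⟩ := Pool.Agent.H883.ZS.two_all K0 c r a b ha hb B
  refine ⟨G, ?_, ε, N, hε, ?_⟩
  · intro L _ _ I hI hmem
    have : IsDomain (MvPolynomial (Fin c) L ⧸ I) := Ideal.Quotient.isDomain I
    obtain ⟨d, hd⟩ := Cardinal.lt_aleph0.1
      (_root_.trdeg_lt_aleph0_of_finiteType (R := L) (S := MvPolynomial (Fin c) L ⧸ I))
    rw [hd]
    exact_mod_cast Pool.Agent.H883.ZS.dim_lt I hI G hG hmem d hd
  · intro K _ _ _ P hP hnear e hcase
    obtain ⟨g, u, hge, hcod, hu⟩ := hnear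
    exact h K P g u hP.1 hP.2 hge hcod hu e hcase

end Pool.Agent.Results.MP_dd1803_nt.LacunaryHeights
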