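import Pool.Agent.H882.S2Glob

/-!
# MP_dd1803_nt: Zilber-Pink in `Y(1)^n` for subvarieties of any dimension whose coordinates have
supersingular reduction at a place above two

`Y(1)^n` is identified with `ℂ^n` by the elliptic modular function `jj = j = E₄³ / Δ`. Let `w` be
the additive valuation of a place above `2`, with `w (2) = 1`. An elliptic curve with the invariant
`x` has potentially good supersingular reduction iff `w (x) > 0`. We show that isogenies change the
number `w (x)` in a very restricted way as long as `0 < w (x) < 8`: for an isogeny of odd degree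
`w (x') = w (x)`, and for an isogeny of degree `2`, `w (x')` is one of `w (x) / 2`, `2 w (x)` (if
`w (x) < 4`), `12 - w (x)` (if `4 < w (x) < 8`), or `w (x) = 4` and `w (x') ≥ 8`. So the number
`w' ∈ (4, 8)` of the form `2 ^ e w (x)`, up to `w' ↦ 12 - w'`, is an invariant of the isogeny class
(if `w (x)` is not of the form `4 / 2 ^ e`). For singular moduli we have `w (x) = 0`, `w (x) ≥ 8`,
`w (x) = 4 / 2 ^ e` or `w' = 6`.

**(A)** Let `V` be a valuation ring of `ℂ` with `|2| < 1`, and `x ∈ ℂ^n` a point whose coordinates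
have `|2|^8 < |x_i|^(2^e_i) < |2|^4`, `|x_i|^(2^e_i) ≠ |2|^6`, with pairwise different invariants
(`SeparatedAnnuli`). One coordinate `x_c` is also allowed to have `|x_c| > 1`. Then `x` is in no
proper special subvariety of `Y(1)^n`.

**(B)** Let `K` be a number field, `σ : K → ℂ`, `v` a prime of `K` above `2`. Let `Y` be a subvariety
of `ℂ^n`, given by multihomogeneous forms over `𝓞 K`, whose reduction modulo `v` is in general
position of dimension `m` with respect to `0` and `∞` (`GeneralPosition`): for each point of the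
reduction in `(P¹)^n` over an extension of the residue field, the number of the coordinates which
are `0` or `∞` plus the number of algebraically independent coordinates is at most `m`. Let
`λ ∈ K^n` with separated annuli with respect to `v` as in (A). Then `X = λ Y` has no atypical
intersection: for each special subvariety `Z` of dimension `r` and each point `x ∈ X ∩ Z` the
transcendence degree of `x` is at most `m + r - n`; in particular `X ∩ Z = ∅` for `m + r < n`.
(`Y` is of dimension at most `m`.) So the statement of Q1 holds for `X`, without any exceptional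
special subvarieties. For instance `K` contains the numbers `2 ^ w_i`, with `n` different rational
numbers `4 < w_i < 6`, `|λ_i|_v = |2 ^ w_i|_v`, and `Y` is a complete intersection of general
hypersurfaces of multidegree `(1, …, 1)`; for `n = 2`, `m = 1` the curve
`y_1 y_2 + a y_1 + b y_2 + c = 0` with `a, b, c` units at `v`. (The closure of a linear subspace in
`(P¹)^n` contains the point `(∞, …, ∞)`, so it is not in general position in this sense if
`0 < m < n`.)

The proof uses the equation `(u + 16)³ = j u` for the three functions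
`u = 2^12 Δ(2τ)/Δ(τ)`, `Δ(τ/2)/Δ(τ)`, `Δ((τ+1)/2)/Δ(τ)`, and places of `ℂ` with algebraically
independent residues.
-/

set_option autoImplicit false

namespace Pool.Agent.Results.MP_dd1803_nt.SupersingularAnnuli

open UpperHalfPlane H294ZP NumberField IsDedekindDomain

/-- A special subvariety of dimension `r` of `Y(1)^n`: a map `cls` from the coordinates onto `r`
classes (`none` for the constant coordinates), an integral matrix of positive determinant for each
coordinate, and a CM point for each coordinate. -/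
structure SpecialVariety (n r : ℕ) where
  cls : Fin n → Option (Fin r)
  surj : ∀ l : Fin r, ∃ i, cls i = some l
  mat : Fin n → Matrix (Fin 2) (Fin 2) ℤ
  det_pos : ∀ i, 0 < (mat i).det
  cm : Fin n → ℍ
  isCM : ∀ i, IsCM (cm i)

/-- The points of a special subvariety: the constant coordinates are the singular moduli
`j (cm i)`, the other coordinates are `j (g_i z_l)`, where `l` is the class of `i`, `g_i = mat i` and
`z_1, …, z_r` are free parameters in the upper half plane. -/
def SpecialVariety.locus {n r : ℕ} (Z : SpecialVariety n r) : Set (Fin n → ℂ) :=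
  {x | ∃ z : Fin r → ℍ, ∀ i, (Z.cls i = none → x i = jj (Z.cm i)) ∧
    ∀ l, Z.cls i = some l → ∃ w : ℍ,
      (w : ℂ) * (Z.mat i 1 0 * z l + Z.mat i 1 1) = Z.mat i 0 0 * z l + Z.mat i 0 1 ∧ x i = jj w}

/-- The absolute values `a i` are in pairwise inequivalent annuli, `t = |2|`: a power
`a i ^ (2 ^ e i)` is strictly between `t ^ 8` and `t ^ 4` and different from `t ^ 6`, and these
powers are pairwise different, also after the reflection `g ↦ t ^ 12 / g`. If `cusp = some c`, then
the coordinate `c` has `1 < a c` instead. -/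
structure SeparatedAnnuli {Γ : Type} [LinearOrderedCommGroupWithZero Γ] (t : Γ) {n : ℕ}
    (cusp : Option (Fin n)) (e : Fin n → ℕ) (a : Fin n → Γ) : Prop where
  gt : ∀ i, cusp ≠ some i → t ^ 8 < a i ^ (2 ^ e i)
  lt : ∀ i, cusp ≠ some i → a i ^ (2 ^ e i) < t ^ 4
  ne : ∀ i, cusp ≠ some i → a i ^ (2 ^ e i) ≠ t ^ 6
  pair : ∀ i k, cusp ≠ some i → cusp ≠ some k → i ≠ k → a i ^ (2 ^ e i) ≠ a k ^ (2 ^ e k)
  pair' : ∀ i k, cusp ≠ some i → cusp ≠ some k → i ≠ k → a i ^ (2 ^ e i) * a k ^ (2 ^ e k) ≠ t ^ 12
  cuspidal : ∀ i, cusp = some i → 1 < a i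

/-- A multihomogeneous form on `(P¹)^n`, homogeneous of degree `deg i` in `(ξ i, ζ i)`. -/
structure MultiForm (R : Type) (n : ℕ) where
  deg : Fin n → ℕ
  coeff : ((i : Fin n) → Fin (deg i + 1)) → R

/-- The value of a form at the point `(ξ i : ζ i)_i`, after a change `π` of the coefficients. -/
def MultiForm.eval {R : Type} [CommRing R] {n : ℕ} (F : MultiForm R n) {k : Type} [CommRing k]
    (π : R →+* k) (ξ ζ : Fin n → k) : k :=
  ∑ e, π (F.coeff e) * ∏ i, ξ i ^ (e i : ℕ) * ζ i ^ (F.deg i - e i)

/-- The reduction modulo `v` of the variety given by the forms is in general position, of dimension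
at most `m`, with respect to `0` and `∞`. -/
def GeneralPosition {K : Type} [Field K] [NumberField K] (v : HeightOneSpectrum (𝓞 K)) {n : ℕ}
    {T : Type} (F : T → MultiForm (𝓞 K) n) (m : ℕ) : Prop :=
  ∀ (k : Type) [Field k] [Algebra (𝓞 K ⧸ v.asIdeal) k] (ξ ζ : Fin n → k),
    (∀ i, ξ i ≠ 0 ∨ ζ i ≠ 0) →
    (∀ t, (F t).eval ((algebraMap (𝓞 K ⧸ v.asIdeal) k).comp (Ideal.Quotient.mk v.asIdeal)) ξ ζ
      = 0) →
    ∀ W : Finset (Fin n), AlgebraicIndependent (𝓞 K ⧸ v.asIdeal) (fun i : W => ξ i / ζ i) →
      {i | ξ i = 0 ∨ ζ i = 0}.ncard + W.card ≤ m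

/-- `X = λ Y`, where `Y ⊆ ℂ^n` is given by the forms `F t`. -/
def image {K : Type} [Field K] [NumberField K] (σ : K →+* ℂ) {n : ℕ} (lam : Fin n → K) {T : Type}
    (F : T → MultiForm (𝓞 K) n) : Set (Fin n → ℂ) :=
  {x | ∃ y : Fin n → ℂ,
    (∀ t, (F t).eval (σ.comp (algebraMap (𝓞 K) K)) y (fun _ => 1) = 0) ∧
    ∀ i, x i = σ (lam i) * y i}

/-- `X`, of dimension at most `m`, has no atypical intersection: for each special subvariety `Z` of
dimension `r`, families of algebraically independent coordinates of points of `X ∩ Z` have at most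
`m + r - n` elements. -/
def NoAtypical {n : ℕ} (X : Set (Fin n → ℂ)) (m : ℕ) : Prop :=
  ∀ (r : ℕ) (Z : SpecialVariety n r), ∀ x ∈ X ∩ Z.locus, ∀ W : Finset (Fin n),
    AlgebraicIndependent ℚ (fun i : W => x i) → n + W.card ≤ m + r

theorem result :
    -- (A)
    (∀ (V : ValuationSubring ℂ), V.valuation 2 < 1 → ∀ (n : ℕ) (cusp : Option (Fin n))
      (e : Fin n → ℕ) (x : Fin n → ℂ),
      SeparatedAnnuli (V.valuation 2) cusp e (fun i => V.valuation (x i)) →
      ∀ (r : ℕ) (Z : SpecialVariety n r), r < n → x ∉ Z.locus) ∧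
    -- (B)
    ∀ (K : Type) [Field K] [NumberField K] (σ : K →+* ℂ) (v : HeightOneSpectrum (𝓞 K)),
      (2 : 𝓞 K) ∈ v.asIdeal → ∀ (n m : ℕ) (T : Type) (F : T → MultiForm (𝓞 K) n),
      GeneralPosition v F m → ∀ (cusp : Option (Fin n)) (e : Fin n → ℕ) (lam : Fin n → K),
      SeparatedAnnuli (v.valuation K 2) cusp e (fun i => v.valuation K (lam i)) →
      NoAtypical (image σ lam F) m := by
  constructor
  · intro V ht n cusp e x h r Z hr hx
    have h1 := Pool.Agent.H882.loc_two (x := x) ht cusp (fun i => V.valuation (x i) ^ (2 ^ e i))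
      (fun i hi => ⟨h.gt i hi, h.lt i hi, h.ne i hi⟩)
      (fun i k hi hk hik => ⟨h.pair i k hi hk hik, h.pair' i k hi hk hik⟩)
      ⟨Z.cls, Z.surj, Z.mat, Z.det_pos, Z.cm, Z.isCM⟩ hx
    have h2 : {i | ¬ ((cusp ≠ some i ∧ Pool.Agent.H882.InS (V.valuation (2 : ℂ))
        (V.valuation (x i) ^ (2 ^ e i)) (V.valuation (x i))) ∨
        (cusp = some i ∧ 1 < V.valuation (x i)))} = ∅ := by
      rw [Set.eq_empty_iff_forall_notMem]
      intro i hi
      apply hi
      by_cases hc : cusp = some i
      · exact Or.inr ⟨hc, h.cuspidal i hc⟩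
      · exact Or.inl ⟨hc, e i, Or.inl rfl⟩
    rw [h2, Set.ncard_empty] at h1
    omega
  · intro K _ _ σ v h2v n m T F hF cusp e lam h
    rintro r Z x ⟨⟨y, hy, hxy⟩, hxZ⟩ W hW
    exact Pool.Agent.H882.glob_two σ v h2v cusp lam e h.cuspidal
      (fun i hi => ⟨h.gt i hi, h.lt i hi, h.ne i hi⟩)
      (fun i k hi hk hik => ⟨h.pair i k hi hk hik, h.pair' i k hi hk hik⟩)
      (fun t => ⟨(F t).deg, (F t).coeff⟩) hF
      ⟨Z.cls, Z.surj, Z.mat, Z.det_pos, Z.cm, Z.isCM⟩ hxZ y hy hxy W hW

end Pool.Agent.Results.MP_dd1803_nt.SupersingularAnnuli
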